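import Pool.Agent.Helper49.LT.StC

/-!
# Project LT (MP_b21509_co), module FI1: the bookkeeping inequality
-/

set_option autoImplicit false

namespace Pool.Agent.Helper90.LT

open Helper49.LT Helper97.CB MeasureTheory Set Filter Metric

private theorem cube_add {A e : ℝ} (hA : 0 ≤ A) (he : 0 ≤ e) : (A + e) ^ 3 ≤ 4 * (A ^ 3 + e ^ 3) := by
  nlinarith [mul_nonneg (add_nonneg hA he) (sq_nonneg (A - e))]

private theorem four_add (A e : ℝ) : (A + e) ^ 4 ≤ 8 * (A ^ 4 + e ^ 4) := by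
  have h3 : (A + e) ^ 2 ≤ 2 * (A ^ 2 + e ^ 2) := by linarith [sq_nonneg (A - e)]
  have h4 : ((A + e) ^ 2) ^ 2 ≤ (2 * (A ^ 2 + e ^ 2)) ^ 2 := pow_le_pow_left₀ (sq_nonneg _) h3 2
  linarith [sq_nonneg (A ^ 2 - e ^ 2)]

private theorem sq_add4 (a b c d : ℝ) : (a + b + c + d) ^ 2 ≤ 4 * (a ^ 2 + b ^ 2 + c ^ 2 + d ^ 2) := by
  linarith [sq_nonneg (a - b), sq_nonneg (a - c), sq_nonneg (a - d), sq_nonneg (b - c), sq_nonneg (b - d),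
    sq_nonneg (c - d)]

private theorem sq_le_of_le {a b : ℝ} (ha : 0 ≤ a) (hab : a ≤ b) (hb : b ≤ 1) : a ^ 2 ≤ b := by
  nlinarith

private theorem mul_le_of_le_one {a b : ℝ} (ha : a ≤ 1) (hb : 0 ≤ b) : a * b ≤ b := by
  nlinarith

/-- the bound for `e²` -/
private theorem e_sq {C A e X q W μ s : ℝ} (hC : 1 ≤ C) (hA : 0 ≤ A) (he : 0 ≤ e) (hX0 : 0 ≤ X) (hX : X ≤ A + e)
    (hq : 0 ≤ q) (hW : 0 ≤ W) (hμ : 0 ≤ μ) (hs : 0 ≤ s) (hs1 : s ≤ 1) (hAs : A ≤ s) (hqs : q ≤ s ^ 2)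
    (heC : 32 * C * e ≤ 1) (h : W + e ^ 2 ≤ C * (X ^ 3 + X * q + q ^ 2 + μ)) :
    e ^ 2 ≤ 14 * C ^ 2 * (s ^ 3 + μ) := by
  have hC0 : 0 < C := by linarith
  have hX3 : X ^ 3 ≤ 4 * (A ^ 3 + e ^ 3) := by
    exact (pow_le_pow_left₀ hX0 hX 3).trans (cube_add hA he)
  have hXq : X * q ≤ A * q + e * q := by nlinarith
  have h3 : A ^ 3 ≤ s ^ 3 := pow_le_pow_left₀ hA hAs 3
  have hAq : A * q ≤ s ^ 3 := by
    calc A * q ≤ s * s ^ 2 := mul_le_mul hAs hqs hq hs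
      _ = s ^ 3 := by ring
  have hq2 : q ^ 2 ≤ s ^ 3 := by
    calc q ^ 2 ≤ (s ^ 2) ^ 2 := pow_le_pow_left₀ hq hqs 2
      _ = s ^ 3 * s := by ring
      _ ≤ s ^ 3 * 1 := mul_le_mul_of_nonneg_left hs1 (pow_nonneg hs 3)
      _ = s ^ 3 := by ring
  have he3 : 4 * C * e ^ 3 ≤ e ^ 2 / 8 := by nlinarith [mul_nonneg he he]
  have heq : C * (e * q) ≤ e ^ 2 / 4 + C ^ 2 * q ^ 2 := by nlinarith [sq_nonneg (e / 2 - C * q)]
  have hCC : C ≤ C ^ 2 := by nlinarith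
  have hs3 : 0 ≤ s ^ 3 := pow_nonneg hs 3
  have h5 : e ^ 2 ≤ C * (4 * (A ^ 3 + e ^ 3) + (A * q + e * q) + q ^ 2 + μ) := by
    have : C * (X ^ 3 + X * q + q ^ 2 + μ) ≤ C * (4 * (A ^ 3 + e ^ 3) + (A * q + e * q) + q ^ 2 + μ) :=
      mul_le_mul_of_nonneg_left (by linarith) hC0.le
    linarith
  have h6 : C * (4 * A ^ 3) ≤ C ^ 2 * (4 * s ^ 3) := mul_le_mul hCC (by linarith) (by positivity) (by positivity)
  have h7 : C * (A * q) ≤ C ^ 2 * s ^ 3 := mul_le_mul hCC hAq (by positivity) (by positivity)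
  have h8 : C * q ^ 2 ≤ C ^ 2 * s ^ 3 := mul_le_mul hCC hq2 (by positivity) (by positivity)
  have h9 : C * μ ≤ C ^ 2 * μ := mul_le_mul_of_nonneg_right hCC hμ
  have h10 : C ^ 2 * q ^ 2 ≤ C ^ 2 * s ^ 3 := mul_le_mul_of_nonneg_left hq2 (by positivity)
  have h11 : 0 ≤ C ^ 2 * μ := by positivity
  have h12 : 0 ≤ C ^ 2 * s ^ 3 := by positivity
  nlinarith

/-- all the terms, with the small parameter `ρ` and `P = ρ S + μ` -/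
private theorem terms {C D δ ρ A e X q W μ η s S P : ℝ} (hC : 1 ≤ C) (hD : 1 ≤ D) (hδ : 0 < δ) (hρ1 : ρ ≤ 1)
    (hA : 0 ≤ A) (he : 0 ≤ e) (hX0 : 0 ≤ X) (hAX : A ≤ X) (hX : X ≤ A + e) (hq : 0 ≤ q) (hμ : 0 ≤ μ)
    (hμ1 : μ ≤ 1) (hs : 0 ≤ s) (hsρ : s ≤ ρ) (hAs : A ≤ s) (hqs : q ≤ s ^ 2) (hS : S = s ^ 4)
    (hP : P = ρ * S + μ) (hXρ : X ≤ ρ) (hηρ : η ≤ ρ) (hE : e ^ 2 ≤ D * (s ^ 3 + μ))
    (hWb : W ≤ C * (X ^ 3 + X * q + q ^ 2 + μ)) :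
    e ^ 4 ≤ 2 * D ^ 2 * P ∧
    e * X ^ 3 + X ^ 5 + (A * e + X ^ 3 + X * q + q ^ 2) ^ 2 + A ^ 2 * W
      + (A * e + e ^ 2 + X ^ 3) * q + (η + X) * q ^ 2 + μ ≤
    7 * δ * S + (D / δ + 8 * D ^ 2 + (8 + 16 * D ^ 2) + 4 * (D + 10 + 16 * D ^ 2) + C * (11 + 16 * D ^ 2)
      + (D + 2 * D ^ 2 + 8 + 16 * D ^ 2) / (4 * δ) + 3) * P := by
  have hρ0 : 0 ≤ ρ := hs.trans hsρ
  have hs1 : s ≤ 1 := hsρ.trans hρ1
  have hS0 : 0 ≤ S := by rw [hS]; positivity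
  have hρS : 0 ≤ ρ * S := mul_nonneg hρ0 hS0
  have hP0 : 0 ≤ P := by rw [hP]; linarith
  have hμP : μ ≤ P := by rw [hP]; linarith
  have hρSP : ρ * S ≤ P := by rw [hP]; linarith
  have hs5 : s ^ 5 ≤ ρ * S := by
    rw [hS]
    calc s ^ 5 = s * s ^ 4 := by ring
      _ ≤ ρ * s ^ 4 := mul_le_mul_of_nonneg_right hsρ (by positivity)
  have hs6 : s ^ 6 ≤ ρ * S := by
    calc s ^ 6 = s * s ^ 5 := by ring
      _ ≤ 1 * s ^ 5 := mul_le_mul_of_nonneg_right hs1 (by positivity)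
      _ ≤ ρ * S := by linarith
  have hμ2 : μ ^ 2 ≤ μ := sq_le_of_le hμ le_rfl hμ1
  have hs2 : s ^ 2 ≤ 1 := sq_le_of_le hs hs1 le_rfl
  have hs2μ : s ^ 2 * μ ≤ μ := mul_le_of_le_one hs2 hμ
  -- e⁴
  have he4 : e ^ 4 ≤ 2 * D ^ 2 * P := by
    have h1 : (e ^ 2) ^ 2 ≤ (D * (s ^ 3 + μ)) ^ 2 := pow_le_pow_left₀ (by positivity) hE 2
    have h2 : (s ^ 3 + μ) ^ 2 ≤ 2 * (s ^ 6 + μ ^ 2) := by nlinarith [sq_nonneg (s ^ 3 - μ)]
    calc e ^ 4 = (e ^ 2) ^ 2 := by ring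
      _ ≤ (D * (s ^ 3 + μ)) ^ 2 := h1
      _ = D ^ 2 * (s ^ 3 + μ) ^ 2 := by ring
      _ ≤ D ^ 2 * (2 * (s ^ 6 + μ ^ 2)) := mul_le_mul_of_nonneg_left h2 (by positivity)
      _ ≤ D ^ 2 * (2 * P) := by
        apply mul_le_mul_of_nonneg_left _ (by positivity)
        rw [hP]
        linarith
      _ = 2 * D ^ 2 * P := by ring
  -- A²e²
  have hAe : A ^ 2 * e ^ 2 ≤ D * P := by
    calc A ^ 2 * e ^ 2 ≤ s ^ 2 * (D * (s ^ 3 + μ)) :=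
          mul_le_mul (pow_le_pow_left₀ hA hAs 2) hE (by positivity) (by positivity)
      _ = D * (s ^ 5 + s ^ 2 * μ) := by ring
      _ ≤ D * P := by
        apply mul_le_mul_of_nonneg_left _ (by linarith)
        rw [hP]
        linarith
  have hse : s ^ 2 * e ^ 2 ≤ D * P := by
    calc s ^ 2 * e ^ 2 ≤ s ^ 2 * (D * (s ^ 3 + μ)) := mul_le_mul_of_nonneg_left hE (by positivity)
      _ = D * (s ^ 5 + s ^ 2 * μ) := by ring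
      _ ≤ D * P := by
        apply mul_le_mul_of_nonneg_left _ (by linarith)
        rw [hP]
        linarith
  -- powers of X
  have hX4 : X ^ 4 ≤ 8 * (S + 2 * D ^ 2 * P) := by
    have h1 : X ^ 4 ≤ (A + e) ^ 4 := pow_le_pow_left₀ hX0 hX 4
    have h2 : (A + e) ^ 4 ≤ 8 * (A ^ 4 + e ^ 4) := four_add A e
    have h3 : A ^ 4 ≤ S := by rw [hS]; exact pow_le_pow_left₀ hA hAs 4
    linarith
  have hX5 : X ^ 5 ≤ (8 + 16 * D ^ 2) * P := by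
    calc X ^ 5 = X * X ^ 4 := by ring
      _ ≤ ρ * (8 * (S + 2 * D ^ 2 * P)) := mul_le_mul hXρ hX4 (by positivity) hρ0
      _ = 8 * (ρ * S) + ρ * (16 * D ^ 2 * P) := by ring
      _ ≤ 8 * P + 1 * (16 * D ^ 2 * P) := by
        have : ρ * (16 * D ^ 2 * P) ≤ 1 * (16 * D ^ 2 * P) := mul_le_mul_of_nonneg_right hρ1 (by positivity)
        linarith
      _ = (8 + 16 * D ^ 2) * P := by ring
  have hX1 : X ≤ 1 := hXρ.trans hρ1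
  have hX6 : X ^ 6 ≤ (8 + 16 * D ^ 2) * P := by
    calc X ^ 6 = X * X ^ 5 := by ring
      _ ≤ 1 * X ^ 5 := mul_le_mul_of_nonneg_right hX1 (by positivity)
      _ ≤ (8 + 16 * D ^ 2) * P := by linarith
  have hq2S : q ^ 2 ≤ S := by
    rw [hS]
    calc q ^ 2 ≤ (s ^ 2) ^ 2 := pow_le_pow_left₀ hq hqs 2
      _ = s ^ 4 := by ring
  have hqρ : q ≤ ρ := hqs.trans (sq_le_of_le hs hsρ hρ1)
  have hq1 : q ≤ 1 := hqρ.trans hρ1
  have hXXq : X ^ 2 * q ^ 2 ≤ P := by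
    have h1 : X ^ 2 ≤ ρ := sq_le_of_le hX0 hXρ hρ1
    calc X ^ 2 * q ^ 2 ≤ ρ * S := mul_le_mul h1 hq2S (by positivity) hρ0
      _ ≤ P := hρSP
  have hq4 : q ^ 4 ≤ P := by
    have h1 : q ^ 2 ≤ ρ := sq_le_of_le hq hqρ hρ1
    calc q ^ 4 = q ^ 2 * q ^ 2 := by ring
      _ ≤ ρ * S := mul_le_mul h1 hq2S (by positivity) hρ0
      _ ≤ P := hρSP
  -- term 1
  have T1 : e * X ^ 3 ≤ 4 * δ * S + D / δ * P + 8 * D ^ 2 * P := by
    have h1 : X ^ 3 ≤ 4 * (A ^ 3 + e ^ 3) := by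
      exact (pow_le_pow_left₀ hX0 hX 3).trans (cube_add hA he)
    have h2 : A ^ 3 ≤ s ^ 3 := pow_le_pow_left₀ hA hAs 3
    have h3 : e * X ^ 3 ≤ e * (4 * (s ^ 3 + e ^ 3)) := mul_le_mul_of_nonneg_left (by linarith) he
    have h4 : e * s ^ 3 ≤ δ * S + s ^ 2 * e ^ 2 / (4 * δ) := by
      have h5 : 0 ≤ (2 * δ * s ^ 2 - s * e) ^ 2 / (4 * δ) := by positivity
      have h6 : (2 * δ * s ^ 2 - s * e) ^ 2 / (4 * δ) = δ * S + s ^ 2 * e ^ 2 / (4 * δ) - e * s ^ 3 := by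
        rw [hS]
        field_simp
        ring
      linarith
    have h5 : s ^ 2 * e ^ 2 / (4 * δ) ≤ D * P / (4 * δ) := div_le_div_of_nonneg_right hse (by positivity)
    have h6 : D * P / (4 * δ) = D / δ * P / 4 := by
      field_simp
    have h7 : e * (4 * (s ^ 3 + e ^ 3)) = 4 * (e * s ^ 3) + 4 * e ^ 4 := by ring
    linarith
  -- term 3
  have T3 : (A * e + X ^ 3 + X * q + q ^ 2) ^ 2 ≤ 4 * (D + 10 + 16 * D ^ 2) * P := by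
    have h1 : (A * e + X ^ 3 + X * q + q ^ 2) ^ 2 ≤
        4 * ((A * e) ^ 2 + (X ^ 3) ^ 2 + (X * q) ^ 2 + (q ^ 2) ^ 2) := sq_add4 _ _ _ _
    have h2 : (A * e) ^ 2 + (X ^ 3) ^ 2 + (X * q) ^ 2 + (q ^ 2) ^ 2 =
        A ^ 2 * e ^ 2 + X ^ 6 + X ^ 2 * q ^ 2 + q ^ 4 := by ring
    rw [h2] at h1
    linarith
  -- term 4
  have T4 : A ^ 2 * W ≤ C * (11 + 16 * D ^ 2) * P := by
    have hA2ρ : A ^ 2 ≤ ρ := sq_le_of_le hA (hAs.trans hsρ) hρ1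
    have hA21 : A ^ 2 ≤ 1 := hA2ρ.trans hρ1
    have h1 : A ^ 2 * W ≤ A ^ 2 * (C * (X ^ 3 + X * q + q ^ 2 + μ)) :=
      mul_le_mul_of_nonneg_left hWb (by positivity)
    have h2 : A ^ 2 * X ^ 3 ≤ X ^ 5 := by
      calc A ^ 2 * X ^ 3 ≤ X ^ 2 * X ^ 3 :=
            mul_le_mul_of_nonneg_right (pow_le_pow_left₀ hA hAX 2) (by positivity)
        _ = X ^ 5 := by ring
    have h3 : A ^ 2 * (X * q) ≤ P := by
      have h4 : A ^ 2 * q ≤ s ^ 2 * s ^ 2 := mul_le_mul (pow_le_pow_left₀ hA hAs 2) hqs hq (by positivity)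
      calc A ^ 2 * (X * q) = X * (A ^ 2 * q) := by ring
        _ ≤ ρ * (s ^ 2 * s ^ 2) := mul_le_mul hXρ h4 (by positivity) hρ0
        _ = ρ * S := by rw [hS]; ring
        _ ≤ P := hρSP
    have h4 : A ^ 2 * q ^ 2 ≤ P := by
      calc A ^ 2 * q ^ 2 ≤ ρ * S := mul_le_mul hA2ρ hq2S (by positivity) hρ0
        _ ≤ P := hρSP
    have h5 : A ^ 2 * μ ≤ P := (mul_le_of_le_one hA21 hμ).trans hμP
    calc A ^ 2 * W ≤ A ^ 2 * (C * (X ^ 3 + X * q + q ^ 2 + μ)) := h1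
      _ = C * (A ^ 2 * X ^ 3 + A ^ 2 * (X * q) + A ^ 2 * q ^ 2 + A ^ 2 * μ) := by ring
      _ ≤ C * ((8 + 16 * D ^ 2) * P + P + P + P) :=
        mul_le_mul_of_nonneg_left (by linarith) (by linarith)
      _ = C * (11 + 16 * D ^ 2) * P := by ring
  -- term 5
  have T5 : (A * e + e ^ 2 + X ^ 3) * q ≤ 3 * δ * S + (D + 2 * D ^ 2 + 8 + 16 * D ^ 2) / (4 * δ) * P := by
    have amgm : ∀ x : ℝ, x * q ≤ δ * S + x ^ 2 / (4 * δ) := by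
      intro x
      have h5 : 0 ≤ (2 * δ * q - x) ^ 2 / (4 * δ) := by positivity
      have h6 : (2 * δ * q - x) ^ 2 / (4 * δ) = δ * q ^ 2 + x ^ 2 / (4 * δ) - x * q := by
        field_simp
        ring
      have h7 : δ * q ^ 2 ≤ δ * S := mul_le_mul_of_nonneg_left hq2S hδ.le
      linarith
    have h1 := amgm (A * e)
    have h2 := amgm (e ^ 2)
    have h3 := amgm (X ^ 3)
    have h4 : (A * e) ^ 2 / (4 * δ) + (e ^ 2) ^ 2 / (4 * δ) + (X ^ 3) ^ 2 / (4 * δ) ≤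
        (D + 2 * D ^ 2 + 8 + 16 * D ^ 2) / (4 * δ) * P := by
      rw [← add_div, ← add_div, div_mul_eq_mul_div]
      apply div_le_div_of_nonneg_right _ (by positivity)
      have : (A * e) ^ 2 + (e ^ 2) ^ 2 + (X ^ 3) ^ 2 = A ^ 2 * e ^ 2 + e ^ 4 + X ^ 6 := by ring
      rw [this]
      linarith
    have h5 : (A * e + e ^ 2 + X ^ 3) * q = A * e * q + e ^ 2 * q + X ^ 3 * q := by ring
    linarith
  -- term 6
  have T6 : (η + X) * q ^ 2 ≤ 2 * P := by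
    calc (η + X) * q ^ 2 ≤ (2 * ρ) * q ^ 2 := mul_le_mul_of_nonneg_right (by linarith) (by positivity)
      _ ≤ (2 * ρ) * S := mul_le_mul_of_nonneg_left hq2S (by linarith)
      _ = 2 * (ρ * S) := by ring
      _ ≤ 2 * P := by linarith
  refine ⟨he4, ?_⟩
  have hsum : 7 * δ * S + (D / δ + 8 * D ^ 2 + (8 + 16 * D ^ 2) + 4 * (D + 10 + 16 * D ^ 2)
      + C * (11 + 16 * D ^ 2) + (D + 2 * D ^ 2 + 8 + 16 * D ^ 2) / (4 * δ) + 3) * P =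
      (4 * δ * S + D / δ * P + 8 * D ^ 2 * P) + (8 + 16 * D ^ 2) * P + 4 * (D + 10 + 16 * D ^ 2) * P
      + C * (11 + 16 * D ^ 2) * P + (3 * δ * S + (D + 2 * D ^ 2 + 8 + 16 * D ^ 2) / (4 * δ) * P)
      + 2 * P + P := by ring
  rw [hsum]
  linarith

/-- module FI1 -/
theorem hFI1 : StFi1 := by
  intro C hC
  have hC0 : 0 < C := by linarith
  obtain ⟨D, hDdef⟩ : ∃ D : ℝ, D = 14 * C ^ 2 := ⟨_, rfl⟩
  obtain ⟨δ, hδdef⟩ : ∃ δ : ℝ, δ = 1 / (140 * C) := ⟨_, rfl⟩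
  have hD : 1 ≤ D := by rw [hDdef]; nlinarith
  have hδ : 0 < δ := by rw [hδdef]; positivity
  obtain ⟨K, hKdef⟩ : ∃ K : ℝ, K = D / δ + 8 * D ^ 2 + (8 + 16 * D ^ 2) + 4 * (D + 10 + 16 * D ^ 2)
      + C * (11 + 16 * D ^ 2) + (D + 2 * D ^ 2 + 8 + 16 * D ^ 2) / (4 * δ) + 3 := ⟨_, rfl⟩
  have hK : 8 ≤ K := by
    have h1 : 0 ≤ D / δ := by positivity
    have h2 : 0 ≤ (D + 2 * D ^ 2 + 8 + 16 * D ^ 2) / (4 * δ) := by positivity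
    have h3 : 0 ≤ C * (11 + 16 * D ^ 2) := by positivity
    have h4 : 0 ≤ D ^ 2 := by positivity
    rw [hKdef]
    linarith
  have hK0 : 0 < K := by linarith
  obtain ⟨ρ, hρdef⟩ : ∃ ρ : ℝ, ρ = 1 / (20 * C * K) := ⟨_, rfl⟩
  have hCKpos : 0 < 20 * C * K := by positivity
  have hρ : 0 < ρ := by rw [hρdef]; positivity
  have hρCK : C * K * ρ = 1 / 20 := by rw [hρdef]; field_simp
  have hρC : 32 * C * ρ ≤ 1 := by
    have h1 : 8 * (C * ρ) ≤ K * (C * ρ) := mul_le_mul_of_nonneg_right hK (by positivity)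
    nlinarith
  have hρ1 : ρ ≤ 1 := by
    have : ρ ≤ C * ρ := by nlinarith
    nlinarith
  refine ⟨10 * C * K + 2 * D ^ 2 * (10 * C * K + 1), ρ ^ 2 / 2, by positivity, by positivity, ?_⟩
  intro A e X q W μ η hA he hAX heX hX hq hW hμ hμ1 hη hXr hqr hηr h1 h2
  have hX0 : 0 ≤ X := hA.trans hAX
  have hr : ρ ^ 2 / 2 ≤ ρ := by
    have := sq_le_of_le hρ.le le_rfl hρ1
    linarith
  have hr1 : ρ ^ 2 / 2 ≤ 1 := hr.trans hρ1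
  obtain ⟨s, hs, hs4⟩ : ∃ s : ℝ, 0 ≤ s ∧ s ^ 4 = A ^ 4 + q ^ 2 := by
    refine ⟨Real.sqrt (Real.sqrt (A ^ 4 + q ^ 2)), Real.sqrt_nonneg _, ?_⟩
    have h3 : (Real.sqrt (Real.sqrt (A ^ 4 + q ^ 2))) ^ 4 =
        ((Real.sqrt (Real.sqrt (A ^ 4 + q ^ 2))) ^ 2) ^ 2 := by ring
    rw [h3, Real.sq_sqrt (Real.sqrt_nonneg _), Real.sq_sqrt (by positivity)]
  have hAs : A ≤ s := by
    apply le_of_pow_le_pow_left₀ (n := 4) (by norm_num) hs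
    rw [hs4]
    linarith [sq_nonneg q]
  have hqs : q ≤ s ^ 2 := by
    apply le_of_pow_le_pow_left₀ (n := 2) (by norm_num) (by positivity)
    have : (s ^ 2) ^ 2 = s ^ 4 := by ring
    rw [this, hs4]
    linarith [pow_nonneg hA 4]
  have hsρ : s ≤ ρ := by
    apply le_of_pow_le_pow_left₀ (n := 4) (by norm_num) hρ.le
    rw [hs4]
    have hA1 : A ≤ ρ ^ 2 / 2 := hAX.trans hXr
    have hA2 : A ^ 2 ≤ (ρ ^ 2 / 2) ^ 2 := pow_le_pow_left₀ hA hA1 2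
    have hA3 : A ^ 2 ≤ 1 := sq_le_of_le hA (hA1.trans hr1) le_rfl
    have hA4 : A ^ 4 ≤ (ρ ^ 2 / 2) ^ 2 := by
      calc A ^ 4 = A ^ 2 * A ^ 2 := by ring
        _ ≤ 1 * A ^ 2 := mul_le_mul_of_nonneg_right hA3 (by positivity)
        _ ≤ (ρ ^ 2 / 2) ^ 2 := by linarith
    have hq2 : q ^ 2 ≤ (ρ ^ 2 / 2) ^ 2 := pow_le_pow_left₀ hq hqr 2
    linarith [pow_pos hρ 4]
  have hs1 : s ≤ 1 := hsρ.trans hρ1
  have heC : 32 * C * e ≤ 1 := by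
    have h3 : 32 * C * e ≤ 32 * C * ρ :=
      mul_le_mul_of_nonneg_left ((heX.trans hXr).trans hr) (by positivity)
    linarith
  have hE := e_sq hC hA he hX0 hX hq hW hμ hs hs1 hAs hqs heC h1
  rw [← hDdef] at hE
  have hWb : W ≤ C * (X ^ 3 + X * q + q ^ 2 + μ) := by linarith [sq_nonneg e]
  obtain ⟨he4, hT⟩ := terms (S := s ^ 4) (P := ρ * s ^ 4 + μ) hC hD hδ hρ1 hA he hX0 hAX hX hq hμ hμ1 hs hsρ hAs
    hqs rfl rfl (hXr.trans hr) (hηr.trans hr) hE hWb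
  rw [← hKdef] at hT
  have h3 := mul_le_mul_of_nonneg_left hT hC0.le
  have hCδ : C * (7 * δ * s ^ 4) = s ^ 4 / 20 := by
    rw [hδdef]
    field_simp
    ring
  have hCKP : C * (K * (ρ * s ^ 4 + μ)) = s ^ 4 / 20 + C * K * μ := by
    have : C * (K * (ρ * s ^ 4 + μ)) = (C * K * ρ) * s ^ 4 + C * K * μ := by ring
    rw [this, hρCK]
    ring
  have h4 : C * (7 * δ * s ^ 4 + K * (ρ * s ^ 4 + μ)) = s ^ 4 / 10 + C * K * μ := by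
    rw [mul_add, hCδ, hCKP]
    ring
  rw [h4] at h3
  have h5 : s ^ 4 / 5 ≤ A ^ 4 + q ^ 2 / 5 := by
    rw [hs4]
    linarith [pow_nonneg hA 4]
  have h6 : s ^ 4 ≤ 10 * C * K * μ := by linarith
  have h7 : e ^ 4 ≤ 2 * D ^ 2 * (10 * C * K + 1) * μ := by
    calc e ^ 4 ≤ 2 * D ^ 2 * (ρ * s ^ 4 + μ) := he4
      _ ≤ 2 * D ^ 2 * ((10 * C * K + 1) * μ) := by
        apply mul_le_mul_of_nonneg_left _ (by positivity)
        have : ρ * s ^ 4 ≤ 1 * s ^ 4 := mul_le_mul_of_nonneg_right hρ1 (by positivity)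
        linarith
      _ = 2 * D ^ 2 * (10 * C * K + 1) * μ := by ring
  calc A ^ 4 + e ^ 4 + q ^ 2 = s ^ 4 + e ^ 4 := by rw [hs4]; ring
    _ ≤ 10 * C * K * μ + 2 * D ^ 2 * (10 * C * K + 1) * μ := add_le_add h6 h7
    _ = (10 * C * K + 2 * D ^ 2 * (10 * C * K + 1)) * μ := by ring

end Pool.Agent.Helper90.LT
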